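import Pool.Agent.helper52.HY.Spec
import Pool.Agent.helper54.V3.SpecT

/-!
# Project mm: geometric core of OUT (Theorem A in the closing of the density theorem), dynamics free
-/

set_option autoImplicit false

open Complex Metric Set Filter Topology MeasureTheory

noncomputable section

namespace Pool.Agent.helper45.MM

open HY

/-- OUTC: a univalent map `P`, a point `e`, a univalent germ `G` of definite hyperbolic size at `e`, a point `a` at
bounded hyperbolic distance from `e`: then `|P e - P a|` is at most a constant times `|(P ∘ G)'(0)|`. -/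
theorem OUTC (hMOB : MOB_stmt) (hKO3 : V3.KO3_stmt) : ∀ q : ℝ, 0 ≤ q → q < 1 → ∀ c : ℝ, 0 < c → ∃ K : ℝ, 0 < K ∧
    ∀ (P G : ℂ → ℂ) (e a : ℂ), DifferentiableOn ℂ P UD → InjOn P UD → e ∈ UD → a ∈ UD → ‖T e a‖ ≤ q →
      UN G → G 0 = e → c * (1 - ‖e‖ ^ 2) ≤ ‖deriv G 0‖ →
      DifferentiableOn ℂ (fun y => P (G y)) UD ∧ InjOn (fun y => P (G y)) UD ∧
        deriv (fun y => P (G y)) 0 = deriv P e * deriv G 0 ∧
        ‖P (G 0) - P a‖ ≤ K * ‖deriv (fun y => P (G y)) 0‖ := by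
  intro q hq0 hq1 c hc
  obtain ⟨C, hC1, hC⟩ := hKO3 ((1 - q) / 2) (by linarith) (by linarith)
  have hC0 : 0 < C := by linarith
  refine ⟨C / c, by positivity, ?_⟩
  intro P G e a hPd hPi he ha hea hG hG0 hGd
  obtain ⟨hM1, -, hS0, -, hSd, -, hSi, -, -, -, hS', -⟩ := hMOB e he
  have h0UD : (0 : ℂ) ∈ UD := by simp [UD]
  have hUDo : IsOpen UD := isOpen_ball
  have hPe : DifferentiableAt ℂ P e := (hPd e he).differentiableAt (hUDo.mem_nhds he)
  have hGa : DifferentiableAt ℂ G 0 := (hG.dif 0 h0UD).differentiableAt (hUDo.mem_nhds h0UD)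
  have hSa : DifferentiableAt ℂ (S e) 0 := (hSd 0 h0UD).differentiableAt (hUDo.mem_nhds h0UD)
  have hd1 : deriv (fun y => P (G y)) 0 = deriv P e * deriv G 0 := by
    have h := deriv_comp (h₂ := P) (h := G) (0 : ℂ) (by rw [hG0]; exact hPe) hGa
    rw [hG0] at h
    exact h
  have hd2 : deriv (fun y => P (S e y)) 0 = deriv P e * deriv (S e) 0 := by
    have h := deriv_comp (h₂ := P) (h := S e) (0 : ℂ) (by rw [hS0]; exact hPe) hSa
    rw [hS0] at h
    exact h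
  have hFd : DifferentiableOn ℂ (fun y => P (S e y)) (ball 0 1) :=
    hPd.comp hSd (fun x hx => (hM1 x hx).2.1)
  have hFi : InjOn (fun y => P (S e y)) (ball 0 1) := by
    intro x hx y hy hxy
    exact hSi hx hy (hPi (hM1 x hx).2.1 (hM1 y hy).2.1 hxy)
  obtain ⟨-, h2⟩ := hC (fun y => P (S e y)) 0 1 one_pos hFd hFi
  have hu : T e a ∈ ball (0 : ℂ) ((1 - (1 - q) / 2) * 1) := by
    rw [mem_ball_zero_iff]; linarith
  obtain ⟨-, -, h3, -⟩ := h2 (T e a) hu
  have h4 : S e (T e a) = a := (hM1 a ha).2.2.1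
  simp only [h4, hS0, sub_zero] at h3
  rw [hd2, hS', norm_mul] at h3
  have he2 : ‖(1 : ℂ) - (‖e‖ : ℂ) ^ 2‖ = 1 - ‖e‖ ^ 2 := by
    have : (1 : ℂ) - (‖e‖ : ℂ) ^ 2 = ((1 - ‖e‖ ^ 2 : ℝ) : ℂ) := by push_cast; ring
    rw [this, Complex.norm_real, Real.norm_eq_abs, abs_of_nonneg]
    have : ‖e‖ < 1 := by simpa [UD] using he
    nlinarith [norm_nonneg e]
  rw [he2] at h3
  refine ⟨?_, ?_, hd1, ?_⟩
  · exact hPd.comp hG.dif hG.map
  · intro x hx y hy hxy
    exact hG.inj hx hy (hPi (hG.map hx) (hG.map hy) hxy)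
  · rw [hd1, norm_mul, hG0, norm_sub_rev]
    have h5 : ‖T e a‖ ≤ 1 := by linarith
    have h6 : ‖P a - P e‖ ≤ C * 1 * (‖deriv P e‖ * (1 - ‖e‖ ^ 2)) := by
      refine h3.trans ?_
      have : 0 ≤ ‖deriv P e‖ * (1 - ‖e‖ ^ 2) := by
        have : ‖e‖ < 1 := by simpa [UD] using he
        have : 0 ≤ 1 - ‖e‖ ^ 2 := by nlinarith [norm_nonneg e]
        positivity
      gcongr
    refine h6.trans ?_
    have h7 : (1 - ‖e‖ ^ 2) ≤ ‖deriv G 0‖ / c := by
      rw [le_div_iff₀ hc]; linarith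
    calc C * 1 * (‖deriv P e‖ * (1 - ‖e‖ ^ 2)) ≤ C * 1 * (‖deriv P e‖ * (‖deriv G 0‖ / c)) := by gcongr
      _ = C / c * (‖deriv P e‖ * ‖deriv G 0‖) := by ring

end Pool.Agent.helper45.MM
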