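import Pool.Agent.helper5.DH.Spec
import Pool.Agent.helper36.MS.Defs
import Pool.Agent.helper94.MA.Spec
import Pool.Agent.helper3.MS.LOSS

/-!
# Project mm: bridge between the tower `DH.Tow` and the model `MS.E`, `MS.OrbD`
-/

set_option autoImplicit false

open Complex Metric Set Filter Topology MeasureTheory Pool.Agent.helper98.ILF Pool.Agent.helper16.Multibrot
open HY (UD T S hd UN RM VV SG Orb fz)

noncomputable section

namespace Pool.Agent.helper45.MM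

variable {n : ℕ} {c : ℂ} {Φ : ℕ → ℂ → ℂ} {b : ℕ → ℂ}

theorem tow_hn1 (hT : DH.Tow n c Φ b) : 1 ≤ n := le_trans (by norm_num) hT.hn

/-- the model maps `UD` to `UD`. -/
theorem E_maps (hT : DH.Tow n c Φ b) (k j : ℕ) : MapsTo (MS.E n (fun i => b (k + i)) j) UD UD :=
  MS.LOSS_E_maps (tow_hn1 hT) _ j (fun _ _ => hT.hb _)

/-- the model is holomorphic. -/
theorem E_diff (hT : DH.Tow n c Φ b) (k j : ℕ) : DifferentiableOn ℂ (MS.E n (fun i => b (k + i)) j) UD :=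
  MS.LOSS_E_diff (tow_hn1 hT) _ j (fun _ _ => hT.hb _)

/-- the model is `f^j : V_(k+j) → V_k`. -/
theorem E_rel (hT : DH.Tow n c Φ b) (k : ℕ) : ∀ (j : ℕ), ∀ w ∈ UD,
    Φ k (MS.E n (fun i => b (k + i)) j w) = (fz n c)^[j] (Φ (k + j) w)
  | 0, w, _ => rfl
  | j + 1, w, hw => by
      have h1 : MS.Bm n (b (k + j)) w ∈ UD := MS.LOSS_Bm_maps (tow_hn1 hT) (hT.hb (k + j)) hw
      have h2 := E_rel hT k j (MS.Bm n (b (k + j)) w) h1
      change Φ k (MS.E n (fun i => b (k + i)) j (MS.Bm n (b (k + j)) w)) = _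
      rw [h2, Function.iterate_succ_apply]
      congr 1
      exact (hT.rel (k + j) w hw).symm

/-- `E j 0` is the coordinate of `f^j 0` in `V_k`. -/
theorem E_zero (hCOP : DH.COP_stmt) (hT : DH.Tow n c Φ b) (k j : ℕ) :
    MS.E n (fun i => b (k + i)) j 0 = DH.yv Φ n c k 0 j := by
  have h0 : (0 : ℂ) ∈ UD := by simp [UD]
  have h1 := E_rel hT k j 0 h0
  rw [(hT.rm (k + j)).val] at h1
  have h2 := E_maps hT k j h0
  obtain ⟨-, -, -, -, h3, -, -⟩ := hCOP _ _ _ (hT.rm k)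
  have h4 := (h3 _ h2).2
  rw [h1] at h4
  exact h4.symm

/-- the orbit of `p` in the model. -/
theorem orbD (hBTP : DH.BTP_stmt) (hT : DH.Tow n c Φ b) (k t : ℕ) {p : ℂ} (hp : p ∈ filled n c) :
    MS.OrbD n (fun i => b (k + i)) (fun j => DH.yv Φ n c (k + j) p (t - j)) t := by
  obtain ⟨-, hB⟩ := hBTP n c Φ b hT
  obtain ⟨-, hyv, -, -⟩ := hB k t p hp
  refine ⟨fun j _ => hT.hb _, fun j _ => (hyv _ _).1, ?_⟩
  intro j hj
  have h1 := (hyv (k + (j + 1)) (t - (j + 1))).1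
  have h2 := (hyv (k + (j + 1)) (t - (j + 1))).2
  have h3 := (hyv (k + j) (t - j)).1
  have h4 := (hyv (k + j) (t - j)).2
  have h5 : MS.Bm n (b (k + j)) (DH.yv Φ n c (k + (j + 1)) p (t - (j + 1))) ∈ UD :=
    MS.LOSS_Bm_maps (tow_hn1 hT) (hT.hb (k + j)) h1
  apply (hT.rm (k + j)).inj h3 h5
  have h6 := hT.rel (k + j) _ h1
  change Φ (k + j) _ = Φ (k + j) (S (b (k + j)) (_ ^ n))
  rw [← h6, h4]
  change _ = fz n c (Φ (k + (j + 1)) _)
  rw [h2, ← Function.iterate_succ_apply' (fz n c)]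
  congr 1
  congr 1
  omega

/-- all bridge facts together (block mm:). -/
theorem BRI (hCOP : DH.COP_stmt) (hBTP : DH.BTP_stmt) : ∀ (n : ℕ) (c : ℂ) (Φ : ℕ → ℂ → ℂ) (b : ℕ → ℂ),
    DH.Tow n c Φ b → ∀ (k t : ℕ) (p : ℂ), p ∈ filled n c →
    MS.OrbD n (fun i => b (k + i)) (fun j => DH.yv Φ n c (k + j) p (t - j)) t ∧
    (∀ j, MapsTo (MS.E n (fun i => b (k + i)) j) UD UD) ∧
    (∀ j, DifferentiableOn ℂ (MS.E n (fun i => b (k + i)) j) UD) ∧
    (∀ j, ∀ w ∈ UD, Φ k (MS.E n (fun i => b (k + i)) j w) = (fz n c)^[j] (Φ (k + j) w)) ∧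
    (∀ j, MS.E n (fun i => b (k + i)) j 0 = DH.yv Φ n c k 0 j) ∧
    (∀ j, ‖DH.yv Φ n c k p (t - j)‖ ≤ ‖DH.yv Φ n c (k + j) p (t - j)‖) ∧
    (∀ j, Φ (k + j) (DH.yv Φ n c (k + j) p (t - j)) = (fz n c)^[t - j] p) := by
  intro n c Φ b hT k t p hp
  obtain ⟨-, hB⟩ := hBTP n c Φ b hT
  obtain ⟨-, hyv, hjj, -⟩ := hB k t p hp
  exact ⟨orbD hBTP hT k t hp, E_maps hT k, E_diff hT k, E_rel hT k, E_zero hCOP hT k,
    fun j => (hjj k (k + j) (t - j) (by omega)).2, fun j => (hyv (k + j) (t - j)).2⟩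

end Pool.Agent.helper45.MM
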