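import Pool.Agent.helper91.MM.SpecB

set_option autoImplicit false

/-! Row `mm:TRE`. -/

namespace Pool.Agent.MM

open Pool.Agent.Scheepers Filter Topology Cardinal

theorem TRE_card : #((ℕ → ℕ) ⊕ (ℕ × ℕ)) ≤ Cardinal.continuum.{0} := by
  rw [Cardinal.mk_sum]
  simp only [Cardinal.lift_id]
  refine Cardinal.add_le_of_le Cardinal.aleph0_le_continuum ?_ ?_
  · simp
  · exact (by simp : #(ℕ × ℕ) = Cardinal.aleph0).le.trans Cardinal.aleph0_le_continuum

theorem TRE (h1 : FIB_stmt) (h2 : SYB_stmt) (h3 : PTB_stmt) (h4 : REZ_stmt) : TRE_stmt := by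
  intro hCH
  obtain ⟨S, hSV, hSP⟩ := h2
  have hpt := h3 S hSV hSP
  obtain ⟨X, hX, hQ, hsel⟩ := h4 S ((ℕ → ℕ) ⊕ (ℕ × ℕ))
    (Sum.elim (fun h => {z | {n | z ∈ F (n, h n)}.Infinite}) (fun w => {z | ∀ w', z ∈ F w' ↔ w' = w}))
    TRE_card hCH (by
      rintro p (h | w)
      · exact (hpt p).1 h
      · exact (hpt p).2 w)
  refine h1 X ?_ ?_ ?_ hsel
  · intro z hz
    have := hX hz
    rw [hSP] at this
    exact this
  · intro h
    exact hQ (Sum.inl h)
  · intro w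
    exact hQ (Sum.inr w)

end Pool.Agent.MM
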